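import Pool.Agent.H72Z.Sdef

set_option autoImplicit false

namespace Pool.Agent.Results.MP_6c3fc6_co.Bipartite

/-- For a bipartite graph (in particular a forest) the second symbolic defect of the facet ideal of
the pure `i`-skeleton of the independence complex is the number of `(i+1)`-dimensional faces. -/
theorem result (K : Type) [Field K] (V : Type) [Fintype V] [DecidableEq V] (G : SimpleGraph V)
    (hG : G.IsAcyclic ∨ G.Colorable 2) (i : ℕ) (hi : 1 ≤ i) (I : Ideal (MvPolynomial V K))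
    (hI : I = Ideal.span
      {p | ∃ F : Finset V, G.IsNIndepSet (i + 1) F ∧ p = ∏ v ∈ F, MvPolynomial.X v}) :
    (Submodule.map (Submodule.mkQ (I ^ 2)) (⨅ P ∈ I.minimalPrimes, P ^ 2)).spanFinrank
      = {H : Finset V | G.IsNIndepSet (i + 2) H}.ncard := by
  have h2 : G.Colorable 2 := hG.elim (fun h => h.colorable_two) id
  have e : I = Pool.Agent.H72Z.Sdef.MI K
      (Pool.Agent.H72Z.Sdef.ind '' {F | G.IsNIndepSet (i + 1) F}) := by
    rw [hI, Pool.Agent.H72Z.Sdef.MI]
    congr 1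
    ext p
    constructor
    · rintro ⟨F, hF, rfl⟩
      exact ⟨_, ⟨F, hF, rfl⟩, (Pool.Agent.H72Z.Sdef.prod_X F).symm⟩
    · rintro ⟨_, ⟨F, hF, rfl⟩, rfl⟩
      exact ⟨F, hF, (Pool.Agent.H72Z.Sdef.prod_X F).symm⟩
  rw [e]
  exact Pool.Agent.H72Z.Sdef.main h2 (i + 1) (by omega)

end Pool.Agent.Results.MP_6c3fc6_co.Bipartite
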